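import Pool.Agent.H68.L.R_seed8.W313.BMX.Stm

set_option autoImplicit false

namespace Pool.Agent.W310.BMX

open Pool.Agent.W313.BMX Polynomial

variable {p : ℕ} [hp : Fact p.Prime]

/-- a p-adic unit is an integer prime to p times a square -/
theorem unit_rep (u : ℤ_[p]) (hu : ‖u‖ = 1) : ∃ (m : ℤ) (z : ℤ_[p]),
    ¬ (p : ℤ) ∣ m ∧ z ≠ 0 ∧ u = (m : ℤ_[p]) * z ^ 2 := by
  have hp1 : (1 : ℝ) < p := by exact_mod_cast hp.out.one_lt
  have hp2 : (2 : ℝ) ≤ p := by exact_mod_cast hp.out.two_le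
  set n : ℕ := PadicInt.appr u 3 with hn
  have h1 : ‖u - (n : ℤ_[p])‖ ≤ (p : ℝ) ^ (-3 : ℤ) := by
    have := (PadicInt.norm_le_pow_iff_mem_span_pow (u - (n : ℤ_[p])) 3).mpr (PadicInt.appr_spec 3 u)
    exact_mod_cast this
  have h3 : (p : ℝ) ^ (-3 : ℤ) < 1 := by
    rw [zpow_neg, inv_lt_one₀ (by positivity)]
    exact one_lt_pow₀ hp1 (by norm_num)
  have hn1 : ‖(n : ℤ_[p])‖ = 1 := by
    have h4 : ‖u - (n : ℤ_[p])‖ < ‖u‖ := by rw [hu]; exact lt_of_le_of_lt h1 h3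
    have h5 : (n : ℤ_[p]) = u - (u - n) := by ring
    have h6 : ‖u - (u - (n : ℤ_[p]))‖ = max ‖u‖ ‖u - (n : ℤ_[p])‖ := by
      have := PadicInt.norm_add_eq_max_of_ne (q := u) (r := -(u - (n : ℤ_[p])))
        (by rw [norm_neg]; exact h4.ne')
      rw [norm_neg] at this
      rw [sub_eq_add_neg u (u - n)]
      exact this
    rw [h5, h6, max_eq_left h4.le, hu]
  have h2n : (1 : ℝ) / 4 ≤ ‖(2 : ℤ_[p])‖ ^ 2 ∧ (p = 2 ∨ ‖(2 : ℤ_[p])‖ = 1) := by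
    by_cases h : p = 2
    · subst h
      have : ‖((2 : ℕ) : ℤ_[2])‖ = (2 : ℝ)⁻¹ := by exact_mod_cast PadicInt.norm_p
      have h' : ‖(2 : ℤ_[2])‖ = (2 : ℝ)⁻¹ := by exact_mod_cast this
      rw [h']
      norm_num
    · have : ‖((2 : ℤ) : ℤ_[p])‖ = 1 := by
        by_contra hc
        have hlt : ‖((2 : ℤ) : ℤ_[p])‖ < 1 := lt_of_le_of_ne (PadicInt.norm_le_one _) hc
        rw [PadicInt.norm_int_lt_one_iff_dvd] at hlt
        have : p ∣ 2 := by exact_mod_cast hlt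
        exact h ((Nat.prime_dvd_prime_iff_eq hp.out Nat.prime_two).mp this)
      have h' : ‖(2 : ℤ_[p])‖ = 1 := by exact_mod_cast this
      rw [h']
      norm_num
  have hkey : (p : ℝ) ^ (-3 : ℤ) < ‖(2 : ℤ_[p])‖ ^ 2 := by
    rcases h2n.2 with h | h
    · have hpp : (p : ℝ) = 2 := by exact_mod_cast h
      rw [hpp]
      refine lt_of_lt_of_le ?_ h2n.1
      norm_num
    · rw [h]; simpa using h3
  have hens := hensels_lemma (p := p) (F := (C (n : ℤ_[p]) * X ^ 2 - C u : ℤ_[p][X])) (a := 1) (by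
    have e1 : (aeval (1 : ℤ_[p])) (C (n : ℤ_[p]) * X ^ 2 - C u : ℤ_[p][X]) = (n : ℤ_[p]) - u := by
      simp
    have e2 : (aeval (1 : ℤ_[p])) (derivative (C (n : ℤ_[p]) * X ^ 2 - C u : ℤ_[p][X]))
        = (n : ℤ_[p]) * 2 := by
      simp [derivative_mul, derivative_pow]
    rw [e1, e2, norm_sub_rev, norm_mul, hn1, one_mul]
    exact lt_of_le_of_lt h1 hkey)
  obtain ⟨z, hz, -⟩ := hens
  have hz' : u = (n : ℤ_[p]) * z ^ 2 := by
    have : (aeval z) (C (n : ℤ_[p]) * X ^ 2 - C u : ℤ_[p][X]) = (n : ℤ_[p]) * z ^ 2 - u := by simp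
    rw [this] at hz
    exact (sub_eq_zero.mp hz).symm
  refine ⟨(n : ℤ), z, ?_, ?_, by rw [hz']; push_cast; rfl⟩
  · rw [← PadicInt.norm_int_lt_one_iff_dvd]
    push_cast
    rw [hn1]
    exact lt_irrefl _
  · rintro rfl
    rw [hz'] at hu
    simp at hu

theorem odd4 : S_ODD4 := by
  intro p _ a ha
  have hp0 : (p : ℚ_[p]) ≠ 0 := by exact_mod_cast (Fact.out : p.Prime).ne_zero
  have hpr : (0 : ℝ) < p := by exact_mod_cast (Fact.out : p.Prime).pos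
  set v := a.valuation with hv
  have hnu : ‖a * (p : ℚ_[p]) ^ (-v)‖ = 1 := by
    rw [norm_mul, Padic.norm_eq_zpow_neg_valuation ha, norm_zpow, Padic.norm_p, ← hv, inv_zpow,
      ← zpow_neg, neg_neg, ← zpow_add₀ hpr.ne']
    simp
  obtain ⟨m, z, hm, hz, hmz⟩ := unit_rep (⟨a * (p : ℚ_[p]) ^ (-v), hnu.le⟩ : ℤ_[p]) hnu
  have hmz' : a * (p : ℚ_[p]) ^ (-v) = (m : ℚ_[p]) * (z : ℚ_[p]) ^ 2 := by
    have := congrArg (fun x : ℤ_[p] => (x : ℚ_[p])) hmz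
    push_cast at this
    exact this
  have ha' : a = (p : ℚ_[p]) ^ v * ((m : ℚ_[p]) * (z : ℚ_[p]) ^ 2) := by
    rw [← hmz', mul_comm, mul_assoc, ← zpow_add₀ hp0]
    simp
  have hzz : (z : ℚ_[p]) ≠ 0 := fun h => hz (Subtype.ext h)
  refine ⟨(v % 2).toNat, m, (p : ℚ_[p]) ^ (v / 2) * z, by omega, hm,
    mul_ne_zero (zpow_ne_zero _ hp0) hzz, ?_⟩
  have hpv : (p : ℚ_[p]) ^ v = (p : ℚ_[p]) ^ (v % 2).toNat * ((p : ℚ_[p]) ^ (v / 2)) ^ 2 := by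
    rw [← zpow_natCast (p : ℚ_[p]) (v % 2).toNat, ← zpow_natCast _ 2, ← zpow_mul, ← zpow_add₀ hp0]
    congr 1
    push_cast
    omega
  rw [ha', hpv]
  push_cast
  ring

end Pool.Agent.W310.BMX
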